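import Pool.Agent.H52.KN.Ser

/-!
MP_1e629d_co, part (A), step 2: the kernel identity.
-/

set_option autoImplicit false

open Finset PowerSeries Pool.H53.RQ

namespace Pool.H52.KN

theorem psi_eq (q : ℝ) (A B : ℕ) : psi q A B =
    (∑ i ∈ range A, q ^ i * w q i * w q (A + B - 1 - i))
      - ∑ i ∈ range B, q ^ i * w q i * w q (A + B - 1 - i) := by
  unfold psi
  rcases le_total A B with h | h
  · rw [Ico_eq_empty_of_le h, sum_empty, sum_Ico_eq_sub _ h]
    ring
  · rw [Ico_eq_empty_of_le h, sum_empty, sum_Ico_eq_sub _ h]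
    ring

theorem psi_zero_zero (q : ℝ) : psi q 0 0 = 0 := by
  simp [psi_eq]

theorem psi_swap (q : ℝ) (A B : ℕ) : psi q B A = - psi q A B := by
  rw [psi_eq, psi_eq, add_comm B A]
  ring

theorem psi_step (q : ℝ) (A B : ℕ) :
    psi q A (B + 1) - psi q (A + 1) B = - (q ^ A * w q A * w q B) - w q A * (q ^ B * w q B) := by
  rw [psi_eq, psi_eq]
  have e1 : A + (B + 1) - 1 = A + B := by omega
  have e2 : A + 1 + B - 1 = A + B := by omega
  rw [e1, e2, sum_range_succ _ A, sum_range_succ _ B]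
  have e3 : A + B - A = B := by omega
  have e4 : A + B - B = A := by omega
  rw [e3, e4]
  ring

/-- the coefficients of `W(c x²)`. -/
noncomputable def wc (q c : ℝ) (n : ℕ) : ℝ := if Even n then w q (n / 2) * c ^ (n / 2) else 0

theorem WX_eq (q a c : ℝ) : WX q a c = PowerSeries.mk fun n => wc q c n * a ^ n := rfl

theorem psi_succ_zero {q : ℝ} (hq0 : 0 < q) (hq1 : q < 1) (A : ℕ) : psi q (A + 1) 0 = 1 := by
  have h := W2 hq0 hq1 1
  simp only [one_pow, map_one, one_mul] at h
  have h2 : ∀ n : ℕ, coeff (2 * n) (WX q 1 1 * WX q 1 q) = 1 := by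
    intro n
    have h3 := congrArg (coeff (2 * n)) h
    induction n with
    | zero =>
      rw [sub_mul, sub_mul, one_mul, map_sub, mul_assoc, coeff_X_pow_mul'] at h3
      simpa using h3
    | succ n ih =>
      have h4 := ih (congrArg (coeff (2 * n)) h)
      rw [sub_mul, sub_mul, one_mul, map_sub, mul_assoc,
        show 2 * (n + 1) = 2 * n + 2 from rfl, coeff_X_pow_mul, h4, coeff_one,
        if_neg (by omega)] at h3
      rw [show 2 * (n + 1) = 2 * n + 2 from rfl]
      linarith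
  have h5 := h2 A
  rw [coeff_mul] at h5
  rw [psi_eq]
  simp only [range_zero, sum_empty, sub_zero]
  rw [← h5, Finset.Nat.sum_antidiagonal_eq_sum_range_succ_mk]
  have h6 : ∀ (m : ℕ) (f : ℕ → ℝ), (∀ i, f (2 * i + 1) = 0) →
      ∑ i ∈ range (2 * m + 1), f i = ∑ i ∈ range (m + 1), f (2 * i) := by
    intro m f hf
    induction m with
    | zero => simp
    | succ m ih =>
      rw [show 2 * (m + 1) + 1 = 2 * m + 1 + 1 + 1 from by ring, sum_range_succ, sum_range_succ, ih,
        hf m, sum_range_succ _ (m + 1)]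
      rw [show 2 * (m + 1) = 2 * m + 1 + 1 from by ring]
      ring
  rw [show (2 * A).succ = 2 * A + 1 from rfl, h6 A _ ?_]
  · rw [← sum_range_reflect]
    apply sum_congr rfl
    intro i hi
    have hi' := mem_range.1 hi
    rw [show A + 1 - 1 - i = A - i from by omega, show A + 1 + 0 - 1 - (A - i) = i from by omega]
    simp only [WX, coeff_mk]
    have v1 : Even (2 * i) := ⟨i, by ring⟩
    have v2 : Even (2 * A - 2 * i) := ⟨A - i, by omega⟩
    rw [if_pos v1, if_pos v2, show 2 * i / 2 = i from by omega, show (2 * A - 2 * i) / 2 = A - i from by omega]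
    simp only [one_pow, mul_one]
    ring
  · intro i
    simp only [WX, coeff_mk]
    rw [if_neg (by rw [Nat.not_even_iff_odd]; exact ⟨i, rfl⟩)]
    simp

/-- a function of the halves, supported at the pairs of even numbers. -/
def ev (F : ℕ → ℕ → ℝ) : ℕ → ℕ → ℝ := fun k m => if Even k ∧ Even m then F (k / 2) (m / 2) else 0

theorem sh1_sh1_ev (F : ℕ → ℕ → ℝ) : sh1 (sh1 (ev F)) = ev (sh1 F) := by
  funext k m
  rcases k with _ | _ | k
  · simp [sh1, ev]
  · simp [sh1, ev]
  · have e : (k + 1 + 1) / 2 = k / 2 + 1 := by omega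
    show ev F k m = _
    unfold ev
    rw [e]
    have e2 : Even (k + 1 + 1) ↔ Even k := by
      constructor
      · rintro ⟨j, hj⟩
        exact ⟨j - 1, by omega⟩
      · rintro ⟨j, hj⟩
        exact ⟨j + 1, by omega⟩
    simp only [e2]
    rfl

theorem sh2_sh2_ev (F : ℕ → ℕ → ℝ) : sh2 (sh2 (ev F)) = ev (sh2 F) := by
  funext k m
  rcases m with _ | _ | m
  · simp [sh2, ev]
  · simp [sh2, ev]
  · have e : (m + 1 + 1) / 2 = m / 2 + 1 := by omega
    show ev F k m = _
    unfold ev
    rw [e]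
    have e2 : Even (m + 1 + 1) ↔ Even m := by
      constructor
      · rintro ⟨j, hj⟩
        exact ⟨j - 1, by omega⟩
      · rintro ⟨j, hj⟩
        exact ⟨j + 1, by omega⟩
    simp only [e2]
    rfl

theorem ev_mul (q c d : ℝ) :
    ev (fun A B => (w q A * c ^ A) * (w q B * d ^ B)) = fun k m => wc q c k * wc q d m := by
  funext k m
  unfold ev wc
  by_cases h1 : Even k <;> by_cases h2 : Even m <;> simp [h1, h2]

/-- the series `x² / (1 - x)`. -/
noncomputable def Hs (a : ℝ) : PowerSeries ℝ :=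
  PowerSeries.mk fun n => (if 2 ≤ n then 1 else 0) * a ^ n

/-- the series `x⁴ / (1 - x²)`. -/
noncomputable def Gs (a : ℝ) : PowerSeries ℝ :=
  PowerSeries.mk fun n => (if 4 ≤ n ∧ Even n then 1 else 0) * a ^ n

theorem Hs_eq (a : ℝ) : (1 - C a * X) * Hs a = (C a * X) ^ 2 := by
  ext n
  rw [sub_mul, one_mul, map_sub, mul_assoc, coeff_C_mul, mul_pow, ← map_pow, coeff_C_mul,
    coeff_X_pow]
  rcases n with _ | _ | _ | n
  · simp [Hs]
  · rw [show 0 + 1 = 1 from rfl, show (1 : ℕ) = 0 + 1 from rfl, coeff_succ_X_mul]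
    simp [Hs]
  · rw [show 0 + 1 + 1 = 1 + 1 from rfl, coeff_succ_X_mul]
    simp [Hs]
  · rw [coeff_succ_X_mul]
    simp only [Hs, coeff_mk]
    rw [if_pos (by omega), if_pos (by omega), if_neg (by omega)]
    ring

theorem Gs_eq (a : ℝ) : (1 - (C a * X) ^ 2) * Gs a = (C a * X) ^ 4 := by
  ext n
  rw [sub_mul, one_mul, map_sub, mul_pow, mul_pow, ← map_pow, ← map_pow, mul_assoc, coeff_C_mul,
    coeff_C_mul, coeff_X_pow]
  rcases n with _ | _ | n
  · rw [coeff_X_pow_mul']
    simp [Gs]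
  · rw [coeff_X_pow_mul']
    simp [Gs]
  · rw [show n + 1 + 1 = n + 2 from rfl, coeff_X_pow_mul]
    simp only [Gs, coeff_mk]
    by_cases h : n = 2
    · subst h
      have e1 : ¬ (4 ≤ 2 ∧ Even 2) := by omega
      have e2 : (4 ≤ 2 + 2 ∧ Even (2 + 2)) := ⟨by omega, ⟨2, rfl⟩⟩
      rw [if_neg e1, if_pos e2, if_pos (rfl : 2 + 2 = 4)]
      ring
    · rw [if_neg (show ¬ n + 2 = 4 from by omega)]
      have e2 : (4 ≤ n + 2 ∧ Even (n + 2)) ↔ (4 ≤ n ∧ Even n) := by
        constructor
        · rintro ⟨h1, j, hj⟩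
          exact ⟨by omega, ⟨j - 1, by omega⟩⟩
        · rintro ⟨h1, j, hj⟩
          exact ⟨by omega, ⟨j + 1, by omega⟩⟩
      simp only [e2]
      ring

/-- R1 -/
theorem R1 {q : ℝ} (hq0 : 0 < q) (hq1 : q < 1) (a b : ℝ) :
    ((C a * X) ^ 2 - (C b * X) ^ 2) * T a b (ev (psi q))
      + (C a * X) ^ 2 * (C b * X) ^ 2 * (WX q a q * WX q b 1 + WX q a 1 * WX q b q)
      = Gs a + Gs b := by
  have e1 : (C a * X) ^ 2 * T a b (ev (psi q)) = T a b (ev (sh1 (psi q))) := by
    rw [← sh1_sh1_ev, T_sh1, T_sh1]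
    ring
  have e2 : (C b * X) ^ 2 * T a b (ev (psi q)) = T a b (ev (sh2 (psi q))) := by
    rw [← sh2_sh2_ev, T_sh2, T_sh2]
    ring
  have e3 : ∀ F : ℕ → ℕ → ℝ, (C a * X) ^ 2 * (C b * X) ^ 2 * T a b (ev F)
      = T a b (ev (sh1 (sh2 F))) := by
    intro F
    rw [← sh1_sh1_ev, ← sh2_sh2_ev, T_sh1, T_sh1, T_sh2, T_sh2]
    ring
  have e4 : WX q a q * WX q b 1 =
      T a b (ev (fun A B => (w q A * q ^ A) * (w q B * 1 ^ B))) := by
    rw [ev_mul, T_mul]
    rfl
  have e5 : WX q a 1 * WX q b q =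
      T a b (ev (fun A B => (w q A * 1 ^ A) * (w q B * q ^ B))) := by
    rw [ev_mul, T_mul]
    rfl
  have e6 : Gs a = T a b (fun k m => (if 4 ≤ k ∧ Even k then 1 else 0) * (if m = 0 then 1 else 0)) := by
    rw [T_mul]
    have e7 : (PowerSeries.mk fun n => (if n = 0 then (1 : ℝ) else 0) * b ^ n) = 1 := by
      ext n
      rw [coeff_mk, coeff_one]
      split_ifs with h
      · rw [h]
        simp
      · simp
    rw [e7, mul_one]
    rfl
  have e8 : Gs b = T a b (fun k m => (if k = 0 then 1 else 0) * (if 4 ≤ m ∧ Even m then 1 else 0)) := by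
    rw [T_mul]
    have e7 : (PowerSeries.mk fun n => (if n = 0 then (1 : ℝ) else 0) * a ^ n) = 1 := by
      ext n
      rw [coeff_mk, coeff_one]
      split_ifs with h
      · rw [h]
        simp
      · simp
    rw [e7, one_mul]
    rfl
  rw [sub_mul, e1, e2, e4, e5, mul_add, e3, e3, e6, e8, ← T_add, ← T_add, ← T_sub, ← T_add]
  congr 1
  funext k m
  unfold ev
  by_cases h : Even k ∧ Even m
  · obtain ⟨⟨A, hA⟩, ⟨B, hB⟩⟩ := h
    have hA2 : k / 2 = A := by omega
    have hB2 : m / 2 = B := by omega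
    have h' : Even k ∧ Even m := ⟨⟨A, hA⟩, ⟨B, hB⟩⟩
    rw [if_pos h', if_pos h', if_pos h', if_pos h', hA2, hB2]
    have hk : (4 ≤ k ∧ Even k) ↔ 2 ≤ A := ⟨fun h => by omega, fun h => ⟨by omega, h'.1⟩⟩
    have hm : (4 ≤ m ∧ Even m) ↔ 2 ≤ B := ⟨fun h => by omega, fun h => ⟨by omega, h'.2⟩⟩
    have hk0 : k = 0 ↔ A = 0 := by omega
    have hm0 : m = 0 ↔ B = 0 := by omega
    simp only [hk, hm, hk0, hm0]
    rcases A with _ | A
    · rcases B with _ | B
      · simp [sh1, sh2]
      · rcases B with _ | B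
        · simp [sh1, sh2, psi_zero_zero]
        · have h1 := psi_succ_zero hq0 hq1 B
          have h2 := psi_swap q (B + 1) 0
          rw [h1] at h2
          simp [sh1, sh2, h2]
    · rcases B with _ | B
      · rcases A with _ | A
        · simp [sh1, sh2, psi_zero_zero]
        · have h1 := psi_succ_zero hq0 hq1 A
          simp [sh1, sh2, h1]
      · have h1 := psi_step q A B
        simp only [sh1, sh2]
        rw [if_neg (by omega : ¬ A + 1 = 0), if_neg (by omega : ¬ B + 1 = 0)]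
        simp only [one_pow, mul_one, mul_zero, zero_mul, add_zero]
        linarith
  · rw [if_neg h, if_neg h, if_neg h, if_neg h]
    by_cases hk : Even k
    · have hm : ¬ Even m := fun hm => h ⟨hk, hm⟩
      have hm0 : ¬ m = 0 := by
        rintro rfl
        exact hm ⟨0, rfl⟩
      simp [hm, hm0]
    · have hk0 : ¬ k = 0 := by
        rintro rfl
        exact hk ⟨0, rfl⟩
      simp [hk, hk0]

theorem Akm_eq (q : ℝ) (k m : ℕ) : Akm q k m = psi q ((k + 1) / 2) ((m + 1) / 2) := rfl

/-- R2 -/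
theorem R2 {q : ℝ} (hq0 : 0 < q) (hq1 : q < 1) (a b : ℝ) :
    (C a * X) * (C b * X) * T a b (Akm q) + Hs a
      = (1 + C a * X) * (1 + C b * X) * T a b (ev (psi q)) + Hs b := by
  have e1 : (C a * X) * (C b * X) * T a b (Akm q) = T a b (sh1 (sh2 (Akm q))) := by
    rw [T_sh1, T_sh2]
    ring
  have e2 : (1 + C a * X) * (1 + C b * X) * T a b (ev (psi q)) =
      T a b (ev (psi q)) + T a b (sh1 (ev (psi q))) + T a b (sh2 (ev (psi q)))
        + T a b (sh1 (sh2 (ev (psi q)))) := by
    rw [T_sh1, T_sh1, T_sh2]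
    ring
  have e6 : Hs a = T a b (fun k m => (if 2 ≤ k then 1 else 0) * (if m = 0 then 1 else 0)) := by
    rw [T_mul]
    have e7 : (PowerSeries.mk fun n => (if n = 0 then (1 : ℝ) else 0) * b ^ n) = 1 := by
      ext n
      rw [coeff_mk, coeff_one]
      split_ifs with h
      · rw [h]
        simp
      · simp
    rw [e7, mul_one]
    rfl
  have e8 : Hs b = T a b (fun k m => (if k = 0 then 1 else 0) * (if 2 ≤ m then 1 else 0)) := by
    rw [T_mul]
    have e7 : (PowerSeries.mk fun n => (if n = 0 then (1 : ℝ) else 0) * a ^ n) = 1 := by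
      ext n
      rw [coeff_mk, coeff_one]
      split_ifs with h
      · rw [h]
        simp
      · simp
    rw [e7, one_mul]
    rfl
  rw [e1, e2, e6, e8, ← T_add, ← T_add, ← T_add, ← T_add, ← T_add]
  congr 1
  funext k m
  rcases k with _ | k
  · rcases m with _ | m
    · simp [sh1, sh2, ev, psi_zero_zero]
    · rcases m with _ | m
      · simp [sh1, sh2, ev, psi_zero_zero]
      · have hB : 2 ≤ m + 1 + 1 := by omega
        simp only [sh1, sh2]
        rw [if_pos hB]
        rcases Nat.even_or_odd' m with ⟨B, hm | hm⟩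
        · have v1 : Even 0 ∧ Even (m + 1 + 1) := ⟨⟨0, rfl⟩, ⟨B + 1, by omega⟩⟩
          have v2 : ¬ (Even 0 ∧ Even (m + 1)) := by
            rintro ⟨_, j, hj⟩
            omega
          unfold ev
          rw [if_pos v1, if_neg v2, show (m + 1 + 1) / 2 = B + 1 from by omega]
          have h1 := psi_succ_zero hq0 hq1 B
          have h2 := psi_swap q (B + 1) 0
          rw [h1] at h2
          simp [h2]
        · have v1 : ¬ (Even 0 ∧ Even (m + 1 + 1)) := by
            rintro ⟨_, j, hj⟩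
            omega
          have v2 : (Even 0 ∧ Even (m + 1)) := ⟨⟨0, rfl⟩, ⟨B + 1, by omega⟩⟩
          unfold ev
          rw [if_neg v1, if_pos v2, show (m + 1) / 2 = B + 1 from by omega]
          have h1 := psi_succ_zero hq0 hq1 B
          have h2 := psi_swap q (B + 1) 0
          rw [h1] at h2
          simp [h2]
  · rcases m with _ | m
    · rcases k with _ | k
      · simp [sh1, sh2, ev, psi_zero_zero]
      · have hB : 2 ≤ k + 1 + 1 := by omega
        simp only [sh1, sh2]
        rw [if_pos hB]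
        rcases Nat.even_or_odd' k with ⟨B, hm | hm⟩
        · have v1 : Even (k + 1 + 1) ∧ Even 0 := ⟨⟨B + 1, by omega⟩, ⟨0, rfl⟩⟩
          have v2 : ¬ (Even (k + 1) ∧ Even 0) := by
            rintro ⟨⟨j, hj⟩, _⟩
            omega
          unfold ev
          rw [if_pos v1, if_neg v2, show (k + 1 + 1) / 2 = B + 1 from by omega]
          have h1 := psi_succ_zero hq0 hq1 B
          simp [h1]
        · have v1 : ¬ (Even (k + 1 + 1) ∧ Even 0) := by
            rintro ⟨⟨j, hj⟩, _⟩
            omega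
          have v2 : (Even (k + 1) ∧ Even 0) := ⟨⟨B + 1, by omega⟩, ⟨0, rfl⟩⟩
          unfold ev
          rw [if_neg v1, if_pos v2, show (k + 1) / 2 = B + 1 from by omega]
          have h1 := psi_succ_zero hq0 hq1 B
          simp [h1]
    · simp only [sh1, sh2]
      rw [if_neg (by omega : ¬ m + 1 = 0), if_neg (by omega : ¬ k + 1 = 0), Akm_eq]
      simp only [mul_zero, zero_mul, add_zero]
      unfold ev
      rcases Nat.even_or_odd' k with ⟨A, hk | hk⟩
      · have k0 : Even k := ⟨A, by omega⟩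
        have k1 : ¬ Even (k + 1) := by
          rintro ⟨j, hj⟩
          omega
        rcases Nat.even_or_odd' m with ⟨B, hm | hm⟩
        · have m0 : Even m := ⟨B, by omega⟩
          have m1 : ¬ Even (m + 1) := by
            rintro ⟨j, hj⟩
            omega
          rw [if_neg (fun h => k1 h.1), if_neg (fun h => m1 h.2), if_neg (fun h => k1 h.1),
            if_pos ⟨k0, m0⟩, show (k + 1) / 2 = k / 2 from by omega,
            show (m + 1) / 2 = m / 2 from by omega]
          ring
        · have m0 : ¬ Even m := by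
            rintro ⟨j, hj⟩
            omega
          have m1 : Even (m + 1) := ⟨B + 1, by omega⟩
          rw [if_neg (fun h => k1 h.1), if_pos ⟨k0, m1⟩, if_neg (fun h => k1 h.1),
            if_neg (fun h => m0 h.2), show (k + 1) / 2 = k / 2 from by omega]
          ring
      · have k0 : ¬ Even k := by
          rintro ⟨j, hj⟩
          omega
        have k1 : Even (k + 1) := ⟨A + 1, by omega⟩
        rcases Nat.even_or_odd' m with ⟨B, hm | hm⟩
        · have m0 : Even m := ⟨B, by omega⟩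
          have m1 : ¬ Even (m + 1) := by
            rintro ⟨j, hj⟩
            omega
          rw [if_neg (fun h => m1 h.2), if_neg (fun h => k0 h.1), if_pos ⟨k1, m0⟩,
            if_neg (fun h => k0 h.1), show (m + 1) / 2 = m / 2 from by omega]
          ring
        · have m0 : ¬ Even m := by
            rintro ⟨j, hj⟩
            omega
          have m1 : Even (m + 1) := ⟨B + 1, by omega⟩
          rw [if_pos ⟨k1, m1⟩, if_neg (fun h => k0 h.1), if_neg (fun h => m0 h.2),
            if_neg (fun h => k0 h.1)]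
          ring

/-- The kernel identity at `x = a u`, `y = b u`. -/
theorem kernel {q : ℝ} (hq0 : 0 < q) (hq1 : q < 1) {a b : ℝ} (ha : a ≠ 0) (hb : b ≠ 0)
    (hab : a + b ≠ 0) :
    ((C a * X) ^ 2 - (C b * X) ^ 2) * (C ((a - b) / (a + b)) + T a b (Akm q))
      = (1 + C a * X) * (1 + C b * X)
        * ((C a * X) * WX q a 1 - (C b * X) * WX q b 1)
        * ((C a * X) * WX q a q - (C b * X) * WX q b q) := by
  set x : PowerSeries ℝ := C a * X with hx
  set y : PowerSeries ℝ := C b * X with hy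
  have r1 := R1 hq0 hq1 a b
  have r2 := R2 hq0 hq1 a b
  have h1 := Hs_eq a
  have h2 := Hs_eq b
  have g1 := Gs_eq a
  have g2 := Gs_eq b
  have p1 := W2 hq0 hq1 a
  have p2 := W2 hq0 hq1 b
  have hX2 : C (a ^ 2) * X ^ 2 = x ^ 2 := by rw [hx, mul_pow, map_pow]
  have hY2 : C (b ^ 2) * X ^ 2 = y ^ 2 := by rw [hy, mul_pow, map_pow]
  rw [hX2] at p1
  rw [hY2] at p2
  rw [← hx] at h1 g1 r1 r2
  rw [← hy] at h2 g2 r1 r2
  have r : (x ^ 2 - y ^ 2) * C ((a - b) / (a + b)) = (x - y) ^ 2 := by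
    have e1 : x ^ 2 - y ^ 2 = C (a ^ 2 - b ^ 2) * X ^ 2 := by
      rw [← hX2, ← hY2, map_sub]
      ring
    have e2 : (x - y) ^ 2 = C ((a - b) ^ 2) * X ^ 2 := by
      rw [hx, hy, ← sub_mul, ← map_sub, mul_pow, map_pow]
    rw [e1, e2]
    have e3 : (a - b) ^ 2 = (a ^ 2 - b ^ 2) * ((a - b) / (a + b)) := by
      field_simp
      ring
    rw [e3, map_mul]
    ring
  have hxy : x * y * ((1 - x ^ 2) * (1 - y ^ 2)) ≠ 0 := by
    have hx0 : x ≠ 0 := by
      rw [hx]
      exact mul_ne_zero (by simpa using ha) X_ne_zero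
    have hy0 : y ≠ 0 := by
      rw [hy]
      exact mul_ne_zero (by simpa using hb) X_ne_zero
    have hx1 : (1 - x ^ 2) ≠ 0 := by
      intro h
      rw [h] at p1
      simp at p1
    have hy1 : (1 - y ^ 2) ≠ 0 := by
      intro h
      rw [h] at p2
      simp at p2
    exact mul_ne_zero (mul_ne_zero hx0 hy0) (mul_ne_zero hx1 hy1)
  apply mul_left_cancel₀ hxy
  generalize WX q a 1 = P at *
  generalize WX q a q = P' at *
  generalize WX q b 1 = Q at *
  generalize WX q b q = Q' at *
  generalize Hs a = H1 at *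
  generalize Hs b = H2 at *
  generalize Gs a = G1 at *
  generalize Gs b = G2 at *
  generalize T a b (Akm q) = K at *
  generalize T a b (ev (psi q)) = Ps at *
  generalize C ((a - b) / (a + b)) = K0 at *
  clear_value x y
  linear_combination ((1 - x ^ 2) * (1 - y ^ 2) * x * y) * r
    + ((1 - x ^ 2) * (1 - y ^ 2) * (x ^ 2 - y ^ 2)) * r2
    + ((1 - x ^ 2) * (1 - y ^ 2) * (1 + x) * (1 + y)) * r1
    + ((1 - y ^ 2) * (1 + x) * (1 + y)) * g1 + ((1 - x ^ 2) * (1 + x) * (1 + y)) * g2
    - ((x ^ 2 - y ^ 2) * (1 - y ^ 2) * (1 + x)) * h1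
    + ((x ^ 2 - y ^ 2) * (1 - x ^ 2) * (1 + y)) * h2
    - ((1 - y ^ 2) * (1 + x) * (1 + y) * x ^ 3 * y) * p1
    - ((1 - x ^ 2) * (1 + x) * (1 + y) * x * y ^ 3) * p2

end Pool.H52.KN
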