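import Pool.Agent.H53.RQ.Defs

/-!
MP_1e629d_co, part (A), steps 1 and 2: the series `W`, the array `psi` and the kernel identity in
`ℝ⟦u⟧`, at two points `x = a u`, `y = b u`.
-/

set_option autoImplicit false

open Finset PowerSeries Pool.H53.RQ

namespace Pool.H52.KN

/-- `∑_{k,m} g(k,m) (a u)^k (b u)^m`. -/
noncomputable def T (a b : ℝ) (g : ℕ → ℕ → ℝ) : PowerSeries ℝ :=
  PowerSeries.mk fun n => ∑ p ∈ antidiagonal n, g p.1 p.2 * (a ^ p.1 * b ^ p.2)

/-- shift of the first index. -/
def sh1 (g : ℕ → ℕ → ℝ) : ℕ → ℕ → ℝ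
  | 0, _ => 0
  | k + 1, m => g k m

/-- shift of the second index. -/
def sh2 (g : ℕ → ℕ → ℝ) : ℕ → ℕ → ℝ
  | _, 0 => 0
  | k, m + 1 => g k m

theorem T_sh1 (a b : ℝ) (g : ℕ → ℕ → ℝ) : T a b (sh1 g) = C a * X * T a b g := by
  ext n
  cases n with
  | zero =>
    simp [T, sh1, mul_assoc]
  | succ n =>
    rw [mul_assoc, coeff_C_mul, coeff_succ_X_mul]
    simp only [T, coeff_mk, Finset.Nat.antidiagonal_succ, sum_cons, sum_map, sh1]
    simp only [zero_mul, zero_add, mul_sum]
    apply sum_congr rfl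
    intro p _
    show g p.1 p.2 * (a ^ (p.1 + 1) * b ^ p.2) = a * (g p.1 p.2 * (a ^ p.1 * b ^ p.2))
    ring

theorem T_sh2 (a b : ℝ) (g : ℕ → ℕ → ℝ) : T a b (sh2 g) = C b * X * T a b g := by
  ext n
  cases n with
  | zero =>
    simp [T, sh2, mul_assoc]
  | succ n =>
    rw [mul_assoc, coeff_C_mul, coeff_succ_X_mul]
    simp only [T, coeff_mk, Finset.Nat.antidiagonal_succ', sum_cons, sum_map, sh2]
    simp only [zero_mul, zero_add, mul_sum]
    apply sum_congr rfl
    intro p _
    show g p.1 p.2 * (a ^ p.1 * b ^ (p.2 + 1)) = b * (g p.1 p.2 * (a ^ p.1 * b ^ p.2))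
    ring

theorem T_mul (a b : ℝ) (g h : ℕ → ℝ) :
    T a b (fun k m => g k * h m) =
      (PowerSeries.mk fun n => g n * a ^ n) * PowerSeries.mk fun n => h n * b ^ n := by
  ext n
  rw [coeff_mul]
  simp only [T, coeff_mk]
  apply sum_congr rfl
  intro p _
  ring

theorem T_add (a b : ℝ) (g h : ℕ → ℕ → ℝ) :
    T a b (fun k m => g k m + h k m) = T a b g + T a b h := by
  ext n
  simp only [T, coeff_mk, map_add, add_mul, sum_add_distrib]

theorem T_sub (a b : ℝ) (g h : ℕ → ℕ → ℝ) :
    T a b (fun k m => g k m - h k m) = T a b g - T a b h := by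
  ext n
  simp only [T, coeff_mk, map_sub, sub_mul, sum_sub_distrib]

/-- `W(c x^2)`, `x = a u`. -/
noncomputable def WX (q a c : ℝ) : PowerSeries ℝ :=
  PowerSeries.mk fun n => (if Even n then w q (n / 2) * c ^ (n / 2) else 0) * a ^ n

theorem w_succ {q : ℝ} (hq0 : 0 < q) (hq1 : q < 1) (i : ℕ) :
    w q (i + 1) * (1 - q ^ (2 * i + 2)) = w q i * (1 - q ^ (2 * i + 1)) := by
  have h : (1 : ℝ) - q ^ (2 * i + 2) ≠ 0 := by
    have := pow_lt_one₀ hq0.le hq1 (n := 2 * i + 2) (by omega)
    linarith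
  unfold w
  rw [prod_range_succ]
  field_simp

/-- (W1): `(1 - c x²) W(c x²) = (1 - q c x²) W(q² c x²)`. -/
theorem W1 {q : ℝ} (hq0 : 0 < q) (hq1 : q < 1) (a c : ℝ) :
    (1 - C (c * a ^ 2) * X ^ 2) * WX q a c = (1 - C (q * c * a ^ 2) * X ^ 2) * WX q (q * a) c := by
  ext n
  rw [sub_mul, sub_mul, one_mul, one_mul, map_sub, map_sub, mul_assoc, mul_assoc, coeff_C_mul,
    coeff_C_mul]
  rcases n with _ | _ | n
  · have h : ∀ f : PowerSeries ℝ, coeff 0 (X ^ 2 * f) = 0 := by
      intro f
      rw [coeff_X_pow_mul']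
      simp
    rw [h, h]
    simp [WX]
  · have h : ∀ f : PowerSeries ℝ, coeff 1 (X ^ 2 * f) = 0 := by
      intro f
      rw [coeff_X_pow_mul']
      simp
    rw [h, h]
    simp [WX]
  · rw [show n + 1 + 1 = n + 2 from rfl, coeff_X_pow_mul, coeff_X_pow_mul]
    simp only [WX, coeff_mk]
    rcases Nat.even_or_odd' n with ⟨j, hj | hj⟩
    · have e1 : Even (n + 1 + 1) := ⟨j + 1, by omega⟩
      have e2 : Even n := ⟨j, by omega⟩
      rw [if_pos e1, if_pos e2]
      have e3 : (n + 2) / 2 = j + 1 := by omega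
      have e4 : n / 2 = j := by omega
      rw [e3, e4]
      have hw := w_succ hq0 hq1 j
      subst hj
      rw [mul_pow q a (2 * j + 2), mul_pow q a (2 * j)]
      have e6 : q ^ (2 * j + 1) = q * q ^ (2 * j) := by ring
      rw [e6] at hw
      linear_combination (c ^ (j + 1) * a ^ (2 * j + 2)) * hw
    · have e1 : ¬ Even (n + 1 + 1) := by
        rw [Nat.not_even_iff_odd]
        exact ⟨j + 1, by omega⟩
      have e2 : ¬ Even n := by
        rw [Nat.not_even_iff_odd]
        exact ⟨j, by omega⟩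
      rw [if_neg e1, if_neg e2]
      ring

theorem WX_q2 (q a : ℝ) : WX q (q * a) 1 = WX q a (q ^ 2) := by
  ext n
  simp only [WX, coeff_mk]
  split_ifs with h
  · obtain ⟨j, hj⟩ := h
    have e : n / 2 = j := by omega
    rw [e]
    have e2 : n = 2 * j := by omega
    rw [e2, mul_pow, ← pow_mul, one_pow]
    ring
  · simp

/-- rescaling of the point. -/
theorem WX_rescale (q a b c : ℝ) : PowerSeries.rescale b (WX q a c) = WX q (b * a) c := by
  ext n
  rw [PowerSeries.coeff_rescale]
  simp only [WX, coeff_mk, mul_pow]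
  ring

/-- (W2) -/
theorem W2 {q : ℝ} (hq0 : 0 < q) (hq1 : q < 1) (a : ℝ) :
    (1 - C (a ^ 2) * X ^ 2) * WX q a 1 * WX q a q = 1 := by
  have hs0 : 0 < Real.sqrt q := Real.sqrt_pos.2 hq0
  have hs2 : Real.sqrt q ^ 2 = q := Real.sq_sqrt hq0.le
  have hs1 : Real.sqrt q < 1 := by
    by_contra hc
    have : 1 ≤ Real.sqrt q := not_lt.1 hc
    nlinarith
  have e1 : WX q (Real.sqrt q) 1 = WX q 1 q := by
    ext n
    simp only [WX, coeff_mk]
    split_ifs with h
    · obtain ⟨j, hj⟩ := h
      have e : n / 2 = j := by omega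
      rw [e]
      have e2 : n = 2 * j := by omega
      rw [e2, pow_mul, hs2]
      simp
    · simp
  have e2 : WX q (Real.sqrt q) q = WX q q 1 := by
    ext n
    simp only [WX, coeff_mk]
    split_ifs with h
    · obtain ⟨j, hj⟩ := h
      have e : n / 2 = j := by omega
      rw [e]
      have e2 : n = 2 * j := by omega
      rw [e2, pow_mul, hs2]
      ring
    · simp
  set G : PowerSeries ℝ := (1 - X ^ 2) * WX q 1 1 * WX q 1 q with hG
  have hr : PowerSeries.rescale (Real.sqrt q) G = G := by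
    have w1 := W1 hq0 hq1 1 1
    simp only [one_pow, mul_one, map_one, one_mul] at w1
    rw [hG, map_mul, map_mul, WX_rescale, WX_rescale, mul_one, e1, e2, map_sub, map_one, map_pow]
    have e3 : PowerSeries.rescale (Real.sqrt q) (X : PowerSeries ℝ) = C (Real.sqrt q) * X := by
      ext n
      rw [PowerSeries.coeff_rescale, coeff_C_mul]
      by_cases h : n = 1
      · subst h
        simp
      · rw [coeff_X, if_neg h]
        simp
    rw [e3, mul_pow, ← map_pow, hs2]
    linear_combination (-WX q 1 q) * w1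
  have hG1 : G = 1 := by
    ext n
    have h := congrArg (coeff n) hr
    rw [PowerSeries.coeff_rescale] at h
    rcases Nat.eq_zero_or_pos n with h0 | h0
    · subst h0
      rw [hG]
      rw [coeff_zero_eq_constantCoeff_apply, map_mul, map_mul]
      rw [← coeff_zero_eq_constantCoeff_apply, ← coeff_zero_eq_constantCoeff_apply, ← coeff_zero_eq_constantCoeff_apply]
      simp [WX, w]
    · have h1 : Real.sqrt q ^ n < 1 := pow_lt_one₀ hs0.le hs1 (by omega)
      have h2 : (Real.sqrt q ^ n - 1) * coeff n G = 0 := by linarith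
      have h3 : coeff n G = 0 := by
        rcases mul_eq_zero.1 h2 with h4 | h4
        · linarith
        · exact h4
      rw [h3, coeff_one, if_neg (by omega)]
  have hfin := congrArg (PowerSeries.rescale a) hG1
  rw [hG, map_mul, map_mul, WX_rescale, WX_rescale, mul_one, map_sub, map_one, map_pow] at hfin
  have e3 : PowerSeries.rescale a (X : PowerSeries ℝ) = C a * X := by
    ext n
    rw [PowerSeries.coeff_rescale, coeff_C_mul]
    by_cases h : n = 1
    · subst h
      simp
    · rw [coeff_X, if_neg h]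
      simp
  rw [e3, mul_pow, ← map_pow] at hfin
  exact hfin

end Pool.H52.KN
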