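import Mathlib

set_option autoImplicit false

open Finset

namespace Pool.H52.KN

/-- `X^(n-1-a) ∏_{l<a} (X - Y_l)` -/
noncomputable def nwt (n : ℕ) (Y : ℕ → ℝ) (a : ℕ) : Polynomial ℝ :=
  Polynomial.X ^ (n - 1 - a) * ∏ l ∈ range a, (Polynomial.X - Polynomial.C (Y l))

theorem nwt_natDegree (n : ℕ) (Y : ℕ → ℝ) (a : ℕ) (ha : a < n) : (nwt n Y a).natDegree < n := by
  unfold nwt
  have h1 : (∏ l ∈ range a, (Polynomial.X - Polynomial.C (Y l))).natDegree ≤ a := by
    refine (Polynomial.natDegree_prod_le _ _).trans ?_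
    refine (Finset.sum_le_sum fun l _ => Polynomial.natDegree_X_sub_C_le _).trans ?_
    simp
  have h2 := Polynomial.natDegree_mul_le
    (p := (Polynomial.X ^ (n - 1 - a) : Polynomial ℝ))
    (q := ∏ l ∈ range a, (Polynomial.X - Polynomial.C (Y l)))
  rw [Polynomial.natDegree_X_pow] at h2
  omega

theorem nwt_eval (n : ℕ) (Y : ℕ → ℝ) (a : ℕ) (y : ℝ) :
    (nwt n Y a).eval y = y ^ (n - 1 - a) * ∏ l ∈ range a, (y - Y l) := by
  unfold nwt
  rw [Polynomial.eval_mul, Polynomial.eval_pow, Polynomial.eval_X, Polynomial.eval_prod]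
  simp only [Polynomial.eval_sub, Polynomial.eval_X, Polynomial.eval_C]

theorem nwt_det (n : ℕ) (Y : ℕ → ℝ) (h0 : ∀ k < n, Y k ≠ 0)
    (hd : ∀ k < n, ∀ l < n, k ≠ l → Y k ≠ Y l) :
    (Matrix.of fun a b : Fin n => (nwt n Y a).coeff b).det ≠ 0 := by
  set A : Matrix (Fin n) (Fin n) ℝ := Matrix.of fun a b : Fin n => (nwt n Y a).coeff b with hA
  set V : Matrix (Fin n) (Fin n) ℝ := Matrix.of fun b k : Fin n => (Y k) ^ (b : ℕ) with hV
  have hAV : ∀ a k : Fin n, (A * V) a k = (nwt n Y a).eval (Y k) := by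
    intro a k
    rw [Matrix.mul_apply, Polynomial.eval_eq_sum_range' (nwt_natDegree n Y a a.2) (Y k),
      Finset.sum_range]
    rfl
  have htri : (A * V).BlockTriangular id := by
    intro a k hka
    have hka' : k < a := hka
    rw [hAV, nwt_eval]
    rw [Finset.prod_eq_zero (mem_range.2 (Fin.lt_def.1 hka')) (sub_self _), mul_zero]
  have hdet : (A * V).det ≠ 0 := by
    rw [Matrix.det_of_isUpperTriangular htri]
    apply Finset.prod_ne_zero_iff.2
    intro a _
    rw [hAV, nwt_eval]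
    apply mul_ne_zero
    · exact pow_ne_zero _ (h0 a a.2)
    · apply Finset.prod_ne_zero_iff.2
      intro l hl
      have hl' := mem_range.1 hl
      exact sub_ne_zero.2 (hd a a.2 l (by omega) (by omega))
  intro h
  apply hdet
  rw [Matrix.det_mul, h, zero_mul]

end Pool.H52.KN
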